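import Pool.Agent.BEL.DefsP

/-!
# Squad BEH (MP_be01ff_an): domains with small holes. Definitions.

Every bounded domain of the plane or of the space, with finitely many arbitrarily small balls
removed, has a solution with the sharp rate (even powers).  The eigenfunctions of `Ω` are the
`b k` (eigenvalues `om k ^ 2`) of the structure `Spec` of squad BEL.
-/

namespace Pool.Agent.BEH

open Set Filter Topology MeasureTheory
open scoped InnerProductSpace ENNReal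
open Pool.Agent.BE01 Pool.Agent.BEL

noncomputable section

variable {d : ℕ}

/-- The length of the unit circle (`d = 2`) or the area of the unit sphere (`d = 3`). -/
def sph (d : ℕ) : ℝ := if d = 2 then 2 * Real.pi else 4 * Real.pi

/-- `x` is a Lebesgue point of `f`. -/
def Leb (f : En d → ℝ) (x : En d) : Prop :=
  ∀ κ : ℝ, 0 < κ → ∃ ρ₀ : ℝ, 0 < ρ₀ ∧ ∀ ρ : ℝ, 0 < ρ → ρ ≤ ρ₀ →
    ∫ y in Metric.closedBall x ρ, |f y - f x| ≤ κ * ρ ^ d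

/-- Measurable and bounded by `B`. -/
def Bm (B : ℝ) (f : En d → ℝ) : Prop := Measurable f ∧ ∀ x, |f x| ≤ B

/-- The linear combination of the functions `f i` with coefficients `c i`. -/
def lc {N : ℕ} (f : Fin N → En d → ℝ) (c : Fin N → ℝ) (x : En d) : ℝ := ∑ i, c i * f i x

/-- The sum of the squares of the coefficients. -/
def sq {N : ℕ} (c : Fin N → ℝ) : ℝ := ∑ i, c i ^ 2

/-- The profile of the charges: `θ` is smooth, `0` for `s ≤ 1/2`, `1` for `s ≥ 1`, with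
derivative `θ'`, positive exactly on `(1/2, 1)` and bounded by `A`. -/
structure Prof (A : ℝ) (θ θ' : ℝ → ℝ) : Prop where
  smooth : ContDiff ℝ ((⊤ : ℕ∞) : WithTop ℕ∞) θ
  der : ∀ s, HasDerivAt θ (θ' s) s
  smooth' : ContDiff ℝ ((⊤ : ℕ∞) : WithTop ℕ∞) θ'
  pos : ∀ s, 1 / 2 < s → s < 1 → 0 < θ' s
  zero' : ∀ s, s ≤ 1 / 2 ∨ 1 ≤ s → θ' s = 0
  le' : ∀ s, 0 ≤ θ' s ∧ θ' s ≤ A
  rng : ∀ s, 0 ≤ θ s ∧ θ s ≤ 1
  zero : ∀ s, s ≤ 1 / 2 → θ s = 0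
  one : ∀ s, 1 ≤ s → θ s = 1

/-- A cut-off function at `x`: it is `0` near the ball of radius `r`, `1` outside the ball of
radius `R`, and its energy against the squares of the linear combinations of the `f i` is nearly
`5/2 γ` times their values at `x`. -/
structure Cut {N : ℕ} (f : Fin N → En d → ℝ) (x : En d) (R κ γ r : ℝ) (η : En d → ℝ) : Prop where
  smooth : ContDiff ℝ ((⊤ : ℕ∞) : WithTop ℕ∞) η
  rng : ∀ y, 0 ≤ η y ∧ η y ≤ 1
  zero : ∃ r' : ℝ, r < r' ∧ ∀ y, ‖y - x‖ ≤ r' → η y = 0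
  one : ∃ R' : ℝ, R' < R ∧ ∀ y, R' ≤ ‖y - x‖ → η y = 1
  en : ∀ c : Fin N → ℝ, ∫ y, lc f c y ^ 2 * ‖gradient η y‖ ^ 2 ≤
    γ * (5 / 2 * lc f c x ^ 2 + κ * sq c)
  vol : volume.real {y | η y ≠ 1} ≤ κ * γ

/-- A potential at `x`: `- Δ ψ = g - h` with a unit charge `g` on the ball of radius `r` and a
charge `h` bounded by `D` on the shell between the radii `R/2` and `R`; its energy is at most
`2/γ`. -/
structure Fld (x : En d) (R D γ r : ℝ) (ψ g h : En d → ℝ) : Prop where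
  smooth : ContDiff ℝ ((⊤ : ℕ∞) : WithTop ℕ∞) ψ
  nonneg : ∀ y, 0 ≤ ψ y
  supp : ∀ y, R ≤ ‖y - x‖ → ψ y = 0
  g_cont : Continuous g
  h_cont : Continuous h
  g_nonneg : ∀ y, 0 ≤ g y
  g_supp : ∀ y, r ≤ ‖y - x‖ → g y = 0
  g_le : ∀ y, g y ≤ D * R ^ d / r ^ d
  g_int : ∫ y, g y = 1
  h_le : ∀ y, 0 ≤ h y ∧ h y ≤ D
  h_supp : ∀ y, R ≤ ‖y - x‖ → h y = 0
  h_pos : ∀ y, R / 2 < ‖y - x‖ → ‖y - x‖ < R → 0 < h y
  lap : ∀ φ : En d → ℝ, ContDiff ℝ ((⊤ : ℕ∞) : WithTop ℕ∞) φ → HasCompactSupport φ →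
    ∫ y, ⟪gradient φ y, gradient ψ y⟫_ℝ = ∫ y, φ y * (g y - h y)
  en : ∫ y, ‖gradient ψ y‖ ^ 2 ≤ 2 / γ

/-- A system of holes in `Ω` for the functions `f i`: centres `x j`, weights `w j`, radii `r j`;
the hole `j` has the capacity (nearly) `ε w j`. -/
structure Sys {N J : ℕ} (Ω : Set (En d)) (f : Fin N → En d → ℝ) (x : Fin J → En d)
    (w : Fin J → ℝ) (R D κ ε : ℝ) (r : Fin J → ℝ) (η ψ g h : Fin J → En d → ℝ) : Prop where
  w_pos : ∀ j, 0 < w j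
  r_pos : ∀ j, 0 < r j ∧ r j < R
  sub : ∀ j, Metric.closedBall (x j) R ⊆ Ω
  dis : ∀ i j, i ≠ j → Disjoint (Metric.closedBall (x i) R) (Metric.closedBall (x j) R)
  quad : ∀ c : Fin N → ℝ, 99 / 100 * sq c ≤ ∑ j, w j * lc f c (x j) ^ 2 ∧
    ∑ j, w j * lc f c (x j) ^ 2 ≤ 101 / 100 * sq c
  cut : ∀ j, Cut f (x j) R κ (ε * w j) (r j) (η j)
  fld : ∀ j, Fld (x j) R D (ε * w j) (r j) (ψ j) (g j) (h j)
  val : ∀ j i, |(∫ y, f i y * g j y) - f i (x j)| ≤ κ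

/-- `Ω` without the balls. -/
def Hl {J : ℕ} (Ω : Set (En d)) (x : Fin J → En d) (r : Fin J → ℝ) : Set (En d) :=
  Ω \ ⋃ j, Metric.closedBall (x j) (r j)

/-- There is a strong solution with the sharp rate. -/
def Rt (Ω : Set (En d)) (a α : ℝ) : Prop :=
  ∃ (u v w : ℝ → Lp ℝ 2 (mu Ω)) (G : ℝ → Lp (En d) 2 (mu Ω)), IsSol Ω a α u v w G ∧
    ∃ c C : ℝ, 0 < c ∧ ∀ t, 0 ≤ t → c * (1 + t) ^ (-(2 / α)) ≤ energy Ω v G t ∧
      energy Ω v G t ≤ C * (1 + t) ^ (-(2 / α))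

/-- The space `H^1_0` with its embedding, and the eigenfunctions. -/
structure Ok (Ω : Set (En d)) (ι : VV Ω →L[ℝ] Lp ℝ 2 (mu Ω))
    (b : HilbertBasis ℕ ℝ (Lp ℝ 2 (mu Ω))) (e : HilbertBasis ℕ ℝ (VV Ω)) (om : ℕ → ℝ) :
    Prop where
  dom : Dom Ω
  emb : Emb2 Ω ι
  grf : Grf Ω ι
  spec : Spec Ω ι b e om

end

end Pool.Agent.BEH
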