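import Pool.Agent.BEH.Defs

/-!
# Squad BEH (MP_be01ff_an): domains with small holes. Statements, with complete proofs.

THEOREM (DEN).  `d = 2, 3`, `Ω` a bounded domain (open, connected, nonempty), `α = 2p` even,
`a > 0`, `δ > 0`: there are finitely many disjoint closed balls in `Ω`, with sum of the radii
less than `δ`, such that `Ω` minus the balls is connected and there the equation has a solution
with `c (1+t)^(-2/α) ≤ E(t) ≤ C (1+t)^(-2/α)`.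

IDEA.  Holes of capacity `ε w j` at points `x j` of a quadrature formula
`∑ w j f i (x j) f k (x j) ≈ δ_ik` move every low eigenvalue of `Ω` by `ε` up to constants (at most
`3 ε`, at least `2 ε/5` for the first one), so `n² λ'_0` leaves the eigenvalues near `n² λ_0` for
`n ≥ 3` (`9 · 2/5 > 3`): the first eigenvalue becomes non-resonant, and FinalState applies.

Everything is for `Lp ℝ 2 (mu Ω)`, `VV Ω`, `Spec` of squads BE01, BEL.  Already proved, may be cited: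
`Pool.Agent.BEL.H53.empA : EmpStmt`, `Pool.Agent.BEL.H53.eigA : EigStmt` (file
`Pool/Agent/Helper53_BEL/Fin.lean`), `Pool.Agent.BEL.H60.prd : PrdStmt` (product with a smooth
function), `Pool.Agent.BEL.H35.ch2 : Ch2Stmt` (chain rule), `Pool.Agent.BEL.H24.lin` (with
`H20.ult` ..: eigenfunctions are bounded), `Pool.Agent.Helper70BE01All.fnl2` (the final state
theorem), `Pool.Agent.Helper70BE01All.eig_bdd`.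
-/

namespace Pool.Agent.BEH

open Set Filter Topology MeasureTheory
open scoped InnerProductSpace ENNReal
open Pool.Agent.BE01 Pool.Agent.BEL

noncomputable section

/-! ## Spectral theory -/

/-- EXT: extension by zero.  Proof: `mu Ω'` is the restriction of `mu Ω` to `Ω'`, so
`u ↦ Ω'.indicator u` is well defined on classes, linear and isometric.  A test function of `Ω'` is
a test function of `Ω`, so the extension of the class of its gradient is in `VV Ω` and, by `Emb2`,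
`ι` of it is the class of the function, the extension of `ι'` of the gradient.  Density of the
gradients of test functions in `VV Ω'`, closedness of `VV Ω`, continuity of `ι, ι'`. -/
def ExtStmt : Prop := ∀ (d : ℕ) (Ω Ω' : Set (En d)) (ι : VV Ω →L[ℝ] Lp ℝ 2 (mu Ω))
  (ι' : VV Ω' →L[ℝ] Lp ℝ 2 (mu Ω')), Dom Ω → Dom Ω' → Ω' ⊆ Ω → Emb2 Ω ι → Emb2 Ω' ι' →
  ∃ (E : Lp ℝ 2 (mu Ω') →ₗᵢ[ℝ] Lp ℝ 2 (mu Ω)) (F : VV Ω' →ₗᵢ[ℝ] VV Ω),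
    (∀ u, E u =ᵐ[mu Ω] Ω'.indicator u) ∧
    (∀ G, ((F G : VV Ω) : Lp (En d) 2 (mu Ω)) =ᵐ[mu Ω]
      Ω'.indicator (G : Lp (En d) 2 (mu Ω'))) ∧
    ∀ G, ι (F G) = E (ι' G)

/-- MMT: trial spaces.  Proof: `m` linear equations `⟪b i, ι (T x)⟫ = 0`, `i < m`, in `m + 1`
unknowns: a solution `x ≠ 0`.  By `rel` `⟪e i, T x⟫ = 0` for `i < m`, so
`‖T x‖² = ∑_(k ≥ m) ⟪e k, T x⟫² = ∑_(k ≥ m) om_k² ⟪b k, ι (T x)⟫² ≥ om_m² ‖ι (T x)‖²`, and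
`ι (T x) ≠ 0`. -/
def MmtStmt : Prop := ∀ (d : ℕ) (Ω : Set (En d)) (ι : VV Ω →L[ℝ] Lp ℝ 2 (mu Ω))
  (b : HilbertBasis ℕ ℝ (Lp ℝ 2 (mu Ω))) (e : HilbertBasis ℕ ℝ (VV Ω)) (om : ℕ → ℝ),
  Spec Ω ι b e om → ∀ (m : ℕ) (T : (Fin (m + 1) → ℝ) →ₗ[ℝ] VV Ω) (c : ℝ),
  (∀ x, x ≠ 0 → ι (T x) ≠ 0) → (∀ x, ‖T x‖ ^ 2 ≤ c * ‖ι (T x)‖ ^ 2) → om m ^ 2 ≤ c

/-- MMX (uses EXT, MMT): the eigenvalues of a smaller domain are larger.  Proof: MMT with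
`T x = F (∑ x_i e'_i)` (`i ≤ k`) and `c = om'_k²`: `‖T x‖² = ∑ x_i²`,
`ι (T x) = E (∑ x_i om'_i⁻¹ b'_i)`, `‖ι (T x)‖² = ∑ x_i² om'_i⁻² ≥ om'_k⁻² ∑ x_i²`. -/
def MmxStmt : Prop := ∀ (d : ℕ) (Ω Ω' : Set (En d)) (ι : VV Ω →L[ℝ] Lp ℝ 2 (mu Ω))
  (b : HilbertBasis ℕ ℝ (Lp ℝ 2 (mu Ω))) (e : HilbertBasis ℕ ℝ (VV Ω)) (om : ℕ → ℝ)
  (ι' : VV Ω' →L[ℝ] Lp ℝ 2 (mu Ω')) (b' : HilbertBasis ℕ ℝ (Lp ℝ 2 (mu Ω')))
  (e' : HilbertBasis ℕ ℝ (VV Ω')) (om' : ℕ → ℝ), Ok Ω ι b e om → Ok Ω' ι' b' e' om' → Ω' ⊆ Ω →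
  ∀ k, om k ≤ om' k

/-- EGK: eigenfunctions and the basis.  Proof: `G_k = om_k e_k` has `ι G_k = b k` (the
coefficients, by `rel`) and `⟪G_k, G'⟫ = om_k² ⟪b k, ι G'⟫` for `G' : VV Ω`; with `Grf` this is
`IsEig Ω (om k ^ 2) (b k)`.  Conversely, if `IsEig Ω μ u` with `(u, G) ∈ H10 Ω` then `G ∈ VV Ω`,
`u = ι G` (`Grf`) and, by density of the gradients of test functions,
`⟪G, G'⟫ = μ ⟪u, ι G'⟫` for all `G' : VV Ω`.  For `G' = e k` (`ι (e k) = om_k⁻¹ b k`,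
`⟪b k, u⟫ = om_k⁻¹ ⟪e k, G⟫`): `(1 - μ om_k⁻²) ⟪e k, G⟫ = 0`.  So `μ = om_k²` for some `k`, unless
`G = 0` and `u = 0`; if `μ = om 0 ^ 2 < om 1 ^ 2` then only `k = 0` remains. -/
def EgkStmt : Prop := ∀ (d : ℕ) (Ω : Set (En d)) (ι : VV Ω →L[ℝ] Lp ℝ 2 (mu Ω))
  (b : HilbertBasis ℕ ℝ (Lp ℝ 2 (mu Ω))) (e : HilbertBasis ℕ ℝ (VV Ω)) (om : ℕ → ℝ),
  Ok Ω ι b e om → (∀ k, IsEig Ω (om k ^ 2) (b k)) ∧
  (∀ μ u, IsEig Ω μ u → u ≠ 0 → ∃ k, μ = om k ^ 2) ∧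
  (om 0 < om 1 → ∀ u, IsEig Ω (om 0 ^ 2) u → ∃ c : ℝ, u = c • b 0)

/-- REP (uses the landed `LinStmt` or `eig_bdd`): bounded representatives.  Proof: `b i` is
bounded: it is the value at time `1` of the heat semigroup with datum `exp(om_i²) b i` (LIN of squad
BEL), or `eig_bdd`.  Take a measurable representative, truncated at the bound and set to `0`
outside `Ω`. -/
def RepStmt : Prop := ∀ (d : ℕ) (Ω : Set (En d)) (ι : VV Ω →L[ℝ] Lp ℝ 2 (mu Ω))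
  (b : HilbertBasis ℕ ℝ (Lp ℝ 2 (mu Ω))) (e : HilbertBasis ℕ ℝ (VV Ω)) (om : ℕ → ℝ),
  (d = 2 ∨ d = 3) → Ok Ω ι b e om → ∀ N : ℕ, ∃ (B : ℝ) (f : Fin N → En d → ℝ), 0 < B ∧
    (∀ i, Bm B (f i)) ∧ (∀ i, f i =ᵐ[mu Ω] b i) ∧ ∀ i x, x ∉ Ω → f i x = 0

/-- PRR: product with a smooth function which vanishes near the part of `Ω` outside `Ω'`.
Proof: for a test function `ψ` of `Ω` the product `η ψ` is smooth, its support is a closed subset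
of the support of `ψ`, so compact, and lies in `tsupport η ∩ Ω ⊆ Ω'`: a test function of `Ω'` with
gradient `η ∇ψ + ψ ∇η`.  `ψ_n → ι G` and `∇ψ_n → G` in `L²`, `η` and `∇η` are bounded: `L²` limits,
`VV Ω'` closed, `ι'` continuous.  `M G` is determined by its values, so `M` is linear. -/
def PrrStmt : Prop := ∀ (d : ℕ) (Ω Ω' : Set (En d)) (ι : VV Ω →L[ℝ] Lp ℝ 2 (mu Ω))
  (ι' : VV Ω' →L[ℝ] Lp ℝ 2 (mu Ω')) (η : En d → ℝ), Dom Ω → Dom Ω' → Ω' ⊆ Ω → Emb2 Ω ι →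
  Emb2 Ω' ι' → ContDiff ℝ ((⊤ : ℕ∞) : WithTop ℕ∞) η →
  (∃ C : ℝ, ∀ y, |η y| ≤ C ∧ ‖gradient η y‖ ≤ C) → tsupport η ∩ Ω ⊆ Ω' →
  ∃ M : VV Ω →ₗ[ℝ] VV Ω', ∀ G : VV Ω, ι' (M G) =ᵐ[mu Ω'] (fun y => η y * ι G y) ∧
    ((M G : VV Ω') : Lp (En d) 2 (mu Ω')) =ᵐ[mu Ω']
      fun y => η y • (G : Lp (En d) 2 (mu Ω)) y + ι G y • gradient η y

/-- ENI (uses PRR): the energy identity.  Proof: with `u = ι G = ∑ c_i b_i` (`rel`), pointwise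
`‖η G + u ∇η‖² = ⟪G, η² G + 2 η u ∇η⟫ + u² ‖∇η‖²`; PRR for `Ω' = Ω` and the function `η²` gives
`G'' : VV Ω` with `ι G'' = η² u`, `G'' = η² G + 2 η u ∇η`, and
`⟪G, G''⟫ = ∑ c_i om_i ⟪e i, G''⟫ = ∑ c_i om_i² ⟪b i, ι G''⟫` by `rel`.  All integrals are finite
(`η`, `∇η` bounded, `u, G` in `L²`). -/
def EniStmt : Prop := ∀ (d : ℕ) (Ω : Set (En d)) (ι : VV Ω →L[ℝ] Lp ℝ 2 (mu Ω))
  (b : HilbertBasis ℕ ℝ (Lp ℝ 2 (mu Ω))) (e : HilbertBasis ℕ ℝ (VV Ω)) (om : ℕ → ℝ),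
  Ok Ω ι b e om → ∀ (η : En d → ℝ), ContDiff ℝ ((⊤ : ℕ∞) : WithTop ℕ∞) η →
  (∃ C : ℝ, ∀ y, |η y| ≤ C ∧ ‖gradient η y‖ ≤ C) → ∀ (N : ℕ) (c : Fin N → ℝ) (G : VV Ω),
  G = ∑ i : Fin N, (c i * om i) • e i → ι G = ∑ i : Fin N, c i • b i ∧
  ∫ y, ‖η y • (G : Lp (En d) 2 (mu Ω)) y + ι G y • gradient η y‖ ^ 2 ∂(mu Ω) =
    ∑ i : Fin N, c i * om i ^ 2 * ∫ y, b i y * ι G y * η y ^ 2 ∂(mu Ω) +
    ∫ y, ι G y ^ 2 * ‖gradient η y‖ ^ 2 ∂(mu Ω)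

/-! ## Points -/

/-- LEB: almost every point is a Lebesgue point.  Proof: Mathlib,
`IsUnifLocDoublingMeasure.ae_tendsto_average_norm_sub` or `Besicovitch`, and
`volume (closedBall x ρ) = ρ^d volume (closedBall 0 1)`. -/
def LebStmt : Prop := ∀ (d : ℕ) (B : ℝ) (f : En d → ℝ), 0 < d → Bm B f → ∀ᵐ x, Leb f x

/-- QUA: quadrature.  Proof: let `Φ x` be the matrix `(f i x f k x)`, with values in
`Fin N × Fin N → ℝ`, and `P` the normalized Lebesgue measure of `Ω`.  The average of `Φ` is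
`δ_ik / |Ω|`, and lies in the closure of the convex hull of `Φ (Ω ∩ S)`
(`Convex.average_mem` for the closed convex set), so there is a convex combination
`∑_j p_j Φ (x j)`, `p_j > 0`, `x j ∈ Ω ∩ S`, with distinct values `Φ (x j)`, so distinct points,
with all entries at distance at most `1 / (100 (N + 1) |Ω|)` from the average.  `w j = |Ω| p_j`:
`|∑_j w j f i (x j) f k (x j) - δ_ik| ≤ 1 / (100 (N + 1))`, multiply by `c i c k` and sum: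
`∑_(i,k) |c i| |c k| ≤ N sq c`. -/
def QuaStmt : Prop := ∀ (d : ℕ) (Ω : Set (En d)) (N : ℕ) (B : ℝ) (f : Fin N → En d → ℝ)
  (S : Set (En d)), Dom Ω → (∀ i, Bm B (f i)) →
  (∀ i k, ∫ y in Ω, f i y * f k y = if i = k then 1 else 0) → (∀ᵐ x, x ∈ S) →
  ∃ (J : ℕ) (x : Fin J → En d) (w : Fin J → ℝ), Function.Injective x ∧
    (∀ j, x j ∈ Ω ∧ x j ∈ S ∧ 0 < w j) ∧
    ∀ c : Fin N → ℝ, 99 / 100 * sq c ≤ ∑ j, w j * lc f c (x j) ^ 2 ∧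
      ∑ j, w j * lc f c (x j) ^ 2 ≤ 101 / 100 * sq c

/-! ## Cut-off functions and potentials -/

/-- THE: the profile of the charges.  Proof: `θ'` is the normalized bump
(`ContDiffBump.normed volume`) with centre `3/4` and radii `1/8 < 1/4`: it is positive exactly on
the ball of radius `1/4` (`ContDiffBump.support_eq`, `ContDiffBump.pos_of_mem_ball`), smooth with
compact support, so bounded, with integral `1`; `θ s = ∫_(-∞)^s θ'`, i.e.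
`∫ t in (1/2)..s, θ' t`. -/
def TheStmt : Prop := ∃ (A : ℝ) (θ θ' : ℝ → ℝ), 0 < A ∧ Prof A θ θ'

/-- CHI: the profile of the cut-off functions.  Proof: the same with centre `23/40`, radii
`1/5 < 3/10`: the normalized bump `β` is at most `1 / volume (ball of radius 1/5) = 5/2`
(the bump is at most `1`, and equal to `1` on the inner ball), supported in `[11/40, 7/8]`;
`χ s = 1 - ∫ t in (11/40)..s, β t`; `∫ χ'² ≤ (5/2) ∫ β = 5/2`. -/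
def ChiStmt : Prop := ∃ χ : ℝ → ℝ, ContDiff ℝ ((⊤ : ℕ∞) : WithTop ℕ∞) χ ∧ Antitone χ ∧
  (∀ s, s ≤ 1 / 4 → χ s = 1) ∧ (∀ s, 7 / 8 ≤ s → χ s = 0) ∧ (∀ s, |deriv χ s| ≤ 5 / 2) ∧
  (∀ s, s ≤ 1 / 4 ∨ 7 / 8 ≤ s → deriv χ s = 0) ∧ ∫ s, (deriv χ s) ^ 2 ≤ 5 / 2

/-- RAI: radial integrals.  Proof: `MeasureTheory.integral_fun_norm_addHaar` (after translation),
and the volume of the unit ball: `π` for `d = 2`, `4π/3` for `d = 3` (`EuclideanSpace.volume_ball`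
or `volume_ball_fin_two`, `volume_ball_fin_three`). -/
def RaiStmt : Prop := ∀ (d : ℕ), (d = 2 ∨ d = 3) → ∀ (x : En d) (f : ℝ → ℝ),
  ∫ y, f ‖y - x‖ = sph d * ∫ ρ in Ioi (0 : ℝ), ρ ^ (d - 1) * f ρ

/-- RGR: the gradient of a radial function.  Proof: near `x` the function is constant; elsewhere
the norm is differentiable with gradient `(y - x)/‖y - x‖` (see `Helper29_BE01/Rht.lean`,
`hasFDerivAt_nrm`, `radial_grad`), chain rule; smoothness: composition away from `x`, constant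
near `x`. -/
def RgrStmt : Prop := ∀ (d : ℕ) (x : En d) (q : ℝ → ℝ) (r : ℝ), 0 < r →
  ContDiffOn ℝ ((⊤ : ℕ∞) : WithTop ℕ∞) q (Ioi 0) → (∀ s, s < r → q s = q 0) →
  ContDiff ℝ ((⊤ : ℕ∞) : WithTop ℕ∞) (fun y : En d => q ‖y - x‖) ∧
  ∀ y, gradient (fun y : En d => q ‖y - x‖) y = (deriv q ‖y - x‖ / ‖y - x‖) • (y - x)

/-- ERR: the error of the values.  Proof: `|lc f c y - lc f c x| ≤ ∑ |c i| |f i y - f i x|`,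
`|lc f c y| + |lc f c x| ≤ 2 B ∑ |c k|`, and `|c i| |c k| ≤ sq c`. -/
def ErrStmt : Prop := ∀ (d N : ℕ) (B : ℝ) (f : Fin N → En d → ℝ) (c : Fin N → ℝ) (x y : En d),
  (∀ i, Bm B (f i)) → lc f c y ^ 2 ≤ lc f c x ^ 2 + 2 * B * N * sq c * ∑ i, |f i y - f i x|

/-- HU3 (uses CHI, RAI, RGR, ERR): cut-off functions, `d = 3`.  Proof: `r = γ/(4π)`,
`η y = χ(r/ρ)`, `ρ = ‖y - x‖`, for `ρ > r`, and `0` for `ρ ≤ r` (smooth: `χ(r/ρ) = 0` for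
`ρ ≤ 8r/7`); `η = 0` for `ρ ≤ r' = 8r/7`, `η = 1` for `ρ ≥ 4r = R' < R` (`γ` small).
`‖∇η‖ = |χ'(r/ρ)| r/ρ²`.  `∫ ‖∇η‖² = 4π ∫ χ'(r/ρ)² r² ρ⁻² dρ = 4π r ∫ χ'(s)² ds ≤ (5/2) γ`
(`s = r/ρ`).  `‖∇η‖² ≤ (25/4) r²/ρ⁴ ≤ (25/4) r⁻²`, and `0` outside the ball of radius `4r`, so by ERR
the error is at most `2BN sq c (25/4) r⁻² ∑_i ∫_(ρ ≤ 4r) |f i - f i x| ≤
2BN² sq c (25/4) 64 κ' r = 800 BN² κ' r sq c`, where `κ'` is the constant of `Leb`, so small that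
this is at most `κ γ sq c`.  `{η ≠ 1}` is in the ball of radius `4r`, of volume
`(4π/3) 64 r³ ≤ κ γ` for `γ` small. -/
def Hu3Stmt : Prop := ∀ (N : ℕ) (B : ℝ) (f : Fin N → En 3 → ℝ) (x : En 3) (R κ : ℝ),
  (∀ i, Bm B (f i)) → (∀ i, Leb (f i) x) → 0 < R → 0 < κ → ∃ γ₀ : ℝ, 0 < γ₀ ∧
  ∀ γ : ℝ, 0 < γ → γ < γ₀ → ∃ η : En 3 → ℝ, Cut f x R κ γ (γ / (4 * Real.pi)) η

/-- DYA: dyadic shells, `d = 2`.  Proof: let `F = |f - f x|`.  For `k = 0, 1, ..` with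
`2⁻ᵏ b > a` the shell `2^(-k-1) b < ρ ≤ 2^(-k) b` contributes at most
`(2^(-k-1) b)⁻² ∫_(ρ ≤ 2^(-k) b) F ≤ 4 κ`; there are at most `log₂ (b/a) + 1` of them. -/
def DyaStmt : Prop := ∀ (f : En 2 → ℝ) (B : ℝ) (x : En 2) (κ a b : ℝ), Bm B f → 0 < a → a < b →
  (∀ ρ : ℝ, 0 < ρ → ρ ≤ b → ∫ y in Metric.closedBall x ρ, |f y - f x| ≤ κ * ρ ^ 2) →
  ∫ y in {y | a < ‖y - x‖ ∧ ‖y - x‖ ≤ b}, |f y - f x| / ‖y - x‖ ^ 2 ≤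
    4 * κ * (Real.log (b / a) / Real.log 2 + 1)

/-- HU2 (uses CHI, RAI, RGR, ERR, DYA): cut-off functions, `d = 2`.  Proof: `L = 2π/γ`,
`r = exp(-L)`, `η y = χ(- log ρ / L)`, `ρ = ‖y - x‖`, for `ρ > r`, and `0` for `ρ ≤ r`; `η = 0` for
`ρ ≤ r' = exp(-7L/8)`, `η = 1` for `ρ ≥ R' = exp(-L/4) < R` (`γ` small).  `‖∇η‖ = |χ'(s)|/(L ρ)`,
`s = - log ρ / L`.  `∫ ‖∇η‖² = 2π L⁻² ∫ χ'(s)² dρ/ρ = 2π L⁻¹ ∫ χ'(s)² ds ≤ (5/2) γ`.  The error is,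
by ERR, at most `2BN sq c (25/4) L⁻² ∑_i ∫_(r' < ρ ≤ R') |f i - f i x| ρ⁻²`, by DYA at most
`2BN² sq c (25/4) L⁻² 4 κ' (L/log 2 + 1) ≤ κ γ sq c` for `κ'` small (`L ≥ 1`).  `{η ≠ 1}` is in the
ball of radius `R'`: volume `π exp(-L/2) ≤ κ 2π/L` for `L` large. -/
def Hu2Stmt : Prop := ∀ (N : ℕ) (B : ℝ) (f : Fin N → En 2 → ℝ) (x : En 2) (R κ : ℝ),
  (∀ i, Bm B (f i)) → (∀ i, Leb (f i) x) → 0 < R → 0 < κ → ∃ γ₀ : ℝ, 0 < γ₀ ∧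
  ∀ γ : ℝ, 0 < γ → γ < γ₀ → ∃ η : En 2 → ℝ, Cut f x R κ γ (Real.exp (-(2 * Real.pi / γ))) η

/-- HFG (uses RAI, RGR): potentials (`h` depends only on `R`).  Proof: `ω = sph d`, `ρ = ‖y - x‖`,
`q(ρ) = θ(ρ/r) - θ(ρ/R)`: smooth, in `[0, 1]` (`θ` is monotone, `r < R`), `0` for `ρ ≤ r/2` and for
`ρ ≥ R`.  `Q(s) = ∫_s^R q(t)/(ω t^(d-1)) dt`, `ψ y = Q(ρ)`, `∇ψ = - q(ρ)/(ω ρ^d) (y - x)`,
`g y = θ'(ρ/r)/(r ω ρ^(d-1))`, `h y = θ'(ρ/R)/(R ω ρ^(d-1))` (both `0` near `x`).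
Bounds: on the support of `g` `ρ ≥ r/2`, so `g ≤ A 2^(d-1)/(ω r^d)`, the same for `h`.
`∫ g = ∫ θ'(ρ/r) dρ/r = 1` (RAI).  `lap`: the field `(y - x) ρ^(-d)` has divergence `0` away
from `x`, so `- Δψ = div (q(ρ)(y - x)/(ω ρ^d)) = q'(ρ)/(ω ρ^(d-1)) = g - h`; integrate by parts
coordinate by coordinate (`integral_mul_fderiv_eq_neg_fderiv_mul_of_integrable`, all smooth with
compact support).  Energy: `∫ ‖∇ψ‖² = ω⁻¹ ∫ q² ρ^(1-d) dρ ≤ ω⁻¹ ∫_(r/2)^R ρ^(1-d) dρ` (RAI). -/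
def HfgStmt : Prop := ∀ (d : ℕ) (A : ℝ) (θ θ' : ℝ → ℝ), (d = 2 ∨ d = 3) → 0 < A → Prof A θ θ' →
  ∀ (x : En d) (R : ℝ), 0 < R → ∃ h : En d → ℝ, ∀ r γ : ℝ, 0 < r → r < R → 0 < γ →
  (sph d)⁻¹ * (∫ ρ in (r / 2)..R, (ρ ^ (d - 1))⁻¹) ≤ 2 / γ →
  ∃ ψ g : En d → ℝ, Fld x R (A * 2 ^ (d - 1) / (sph d * R ^ d)) γ r ψ g h

/-- HOL (uses THE, HU3, HU2, HFG): a hole at a Lebesgue point.  Proof: `D` of HFG depends only on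
`d, R` (`θ` fixed by THE).  `r = γ/(4π)` or `exp(-2π/γ)`, less than `R` for `γ` small.  Energy:
`d = 3`: `(4π)⁻¹ (2/r - 1/R) ≤ 2/γ`; `d = 2`: `(2π)⁻¹ log(2R/r) = (2π)⁻¹ log(2R) + 1/γ ≤ 2/γ` for
`γ` small.  Last claim: `|∫ f g - f x| = |∫ (f - f x) g| ≤ (D R^d/r^d) ∫_(ρ ≤ r) |f - f x| ≤
D R^d κ'`, with `κ' = κ/(D R^d)` in `Leb`, `r` small. -/
def HolStmt : Prop := ∀ (d : ℕ), (d = 2 ∨ d = 3) → ∀ R : ℝ, 0 < R → ∃ D : ℝ, 0 < D ∧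
  ∀ (N : ℕ) (B : ℝ) (f : Fin N → En d → ℝ) (x : En d) (κ : ℝ), (∀ i, Bm B (f i)) →
  (∀ i, Leb (f i) x) → 0 < κ → ∃ γ₀ : ℝ, 0 < γ₀ ∧ ∀ γ : ℝ, 0 < γ → γ < γ₀ →
  ∃ (r : ℝ) (η ψ g h : En d → ℝ), 0 < r ∧ r < R ∧ Cut f x R κ γ r η ∧ Fld x R D γ r ψ g h ∧
    ∀ i, |(∫ y, f i y * g y) - f i x| ≤ κ

/-- SYE (uses LEB, QUA, HOL): systems of holes exist.  Proof: QUA with `S` = the set of the points
which are Lebesgue points of all `f i`.  `R` so small that the closed balls of radius `R` at the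
`x j` are in `Ω` and disjoint, and `J R < δ`.  HOL at every `x j`, with `γ = ε w j`. -/
def SyeStmt : Prop := ∀ (d : ℕ) (Ω : Set (En d)) (N : ℕ) (B δ : ℝ) (f : Fin N → En d → ℝ),
  (d = 2 ∨ d = 3) → Dom Ω → (∀ i, Bm B (f i)) →
  (∀ i k, ∫ y in Ω, f i y * f k y = if i = k then 1 else 0) → 0 < δ →
  ∃ (J : ℕ) (x : Fin J → En d) (w : Fin J → ℝ) (R D : ℝ), 0 < R ∧ 0 < D ∧ J * R < δ ∧
    ∀ κ : ℝ, 0 < κ → ∃ ε₀ : ℝ, 0 < ε₀ ∧ ∀ ε : ℝ, 0 < ε → ε < ε₀ →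
      ∃ (r : Fin J → ℝ) (η ψ g h : Fin J → En d → ℝ), Sys Ω f x w R D κ ε r η ψ g h

/-- GEO: the domain with holes.  Proof: open: the balls are closed, finitely many.  Connected, by
induction on the number of balls: let `U` be open and connected, `closedBall x R ⊆ U`,
`0 < r < R`, and `U' = U \ closedBall x r = V ∪ V'` with `V, V'` open, disjoint, nonempty.  The shell
`{r < ‖y - x‖ < R}` is connected (image of the sphere times an interval; spheres are connected for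
`d ≥ 2`, `isPreconnected_sphere`), so it is in one of them, say in `V`; then `V ∪ ball x R` and
`V'` are open, disjoint, and cover `U`: contradiction. -/
def GeoStmt : Prop := ∀ (d : ℕ) (Ω : Set (En d)) (J : ℕ) (x : Fin J → En d) (R : ℝ)
  (r : Fin J → ℝ), 2 ≤ d → IsOpen Ω → IsConnected Ω → (∀ j, 0 < r j ∧ r j < R) →
  (∀ j, Metric.closedBall (x j) R ⊆ Ω) →
  (∀ i j, i ≠ j → Disjoint (Metric.closedBall (x i) R) (Metric.closedBall (x j) R)) →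
  IsOpen (Hl Ω x r) ∧ IsConnected (Hl Ω x r)

/-! ## The two estimates -/

/-- PRE: the product of the cut-off functions.  Proof: the sets `{η j ≠ 1}` are in the disjoint
balls `‖y - x j‖ < R' j < R`, so near every point at most one factor is not `1`; `η j = 0` near
`closedBall (x j) (r j)`. -/
def PreStmt : Prop := ∀ (d : ℕ) (Ω : Set (En d)) (N J : ℕ) (f : Fin N → En d → ℝ)
  (x : Fin J → En d) (w : Fin J → ℝ) (R D κ ε : ℝ) (r : Fin J → ℝ) (η ψ g h : Fin J → En d → ℝ),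
  Sys Ω f x w R D κ ε r η ψ g h → ∀ H : En d → ℝ, (H = fun y => ∏ j, η j y) →
  ContDiff ℝ ((⊤ : ℕ∞) : WithTop ℕ∞) H ∧ (∀ y, 0 ≤ H y ∧ H y ≤ 1) ∧
  (∃ C : ℝ, ∀ y, ‖gradient H y‖ ≤ C) ∧ (∀ y, ‖gradient H y‖ ^ 2 = ∑ j, ‖gradient (η j) y‖ ^ 2) ∧
  tsupport H ∩ Ω ⊆ Hl Ω x r ∧ (∀ y, y ∈ Ω → y ∉ Hl Ω x r → H y = 0 ∧ gradient H y = 0) ∧
  {y | H y ≠ 1} ⊆ ⋃ j, {y | η j y ≠ 1}

/-- UPP (uses PRR, ENI, MMT, PRE, EXT): low eigenvalues move by at most `3 ε`.  Proof: `H` of PRE,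
`M` of PRR for `Ω, Ω' = Hl Ω x r, H`, and `T c = M (∑_(i ≤ m) c_i om_i e_i)`, `u = ∑ c_i b_i`,
`u = lc f c` almost everywhere (`c` extended by `0`).  `H = 0`, `∇H = 0` on `Ω \ Ω'`, so
`‖ι' (T c)‖² = ∫_Ω u² H²` and `‖T c‖² = ∫_Ω ‖H G + u ∇H‖²`, `Λ = om_m²`.  ENI:
`‖T c‖² - Λ ‖ι' (T c)‖² = ∑ c_i² (om_i² - Λ) + ∑_(i,k) c_i c_k (Λ - om_i²) ∫ b_i b_k (1 - H²)
+ ∫ u² ‖∇H‖²`.  The first sum is `≤ 0`; the second is at most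
`Λ N B² sq c volume {H ≠ 1} ≤ Λ N B² sq c κ ε W`, `W = ∑ w j`; the third is, by PRE, `Cut.en` and
`quad`, at most `ε (5/2 · 101/100 + κ W) sq c`.  And `‖ι' (T c)‖² ≥ sq c (1 - N B² κ ε W)`.  For
`κ ≤ κ₀` and `ε < 1`: `‖T c‖² - Λ ‖ι' (T c)‖² ≤ 2.7 ε sq c ≤ 3 ε ‖ι' (T c)‖²`.  MMT on `Ω'`. -/
def UppStmt : Prop := ∀ (d : ℕ) (Ω : Set (En d)) (ι : VV Ω →L[ℝ] Lp ℝ 2 (mu Ω))
  (b : HilbertBasis ℕ ℝ (Lp ℝ 2 (mu Ω))) (e : HilbertBasis ℕ ℝ (VV Ω)) (om : ℕ → ℝ) (N : ℕ)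
  (B : ℝ) (f : Fin N → En d → ℝ) (J : ℕ) (w : Fin J → ℝ), Ok Ω ι b e om →
  (∀ i, Bm B (f i)) → (∀ i, f i =ᵐ[mu Ω] b i) → ∃ κ₀ : ℝ, 0 < κ₀ ∧
  ∀ (x : Fin J → En d) (R D κ ε : ℝ) (r : Fin J → ℝ) (η ψ g h : Fin J → En d → ℝ), 0 < κ →
  κ ≤ κ₀ → 0 < ε → ε < 1 → Sys Ω f x w R D κ ε r η ψ g h →
  ∀ (ι' : VV (Hl Ω x r) →L[ℝ] Lp ℝ 2 (mu (Hl Ω x r)))
    (b' : HilbertBasis ℕ ℝ (Lp ℝ 2 (mu (Hl Ω x r)))) (e' : HilbertBasis ℕ ℝ (VV (Hl Ω x r)))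
    (om' : ℕ → ℝ), Ok (Hl Ω x r) ι' b' e' om' → ∀ m, m < N → om' m ^ 2 ≤ om m ^ 2 + 3 * ε

/-- DUA: the energy of a function equal to `- lc f c` on the holes.  Proof:
`Ψ = ∑_j w_j lc f c (x j) ψ_j` is a test function of `Ω` (supports in the disjoint balls
`closedBall (x j) R`).  `∫ ‖∇Ψ‖² = ∑ w_j² lc(x_j)² ∫ ‖∇ψ_j‖² ≤ ∑ w_j² lc(x_j)² 2/(ε w_j) = 2S/ε`.
`lap` holds for `W` by density: `∫ ⟪W, ∇ψ_j⟫ = ∫ ι W (g_j - h_j)`.  On the support of `g_j`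
`ι W = - lc f c`, and `|∫ lc f c g_j - lc f c (x_j)| ≤ κ ∑ |c_i|` (`val`);
`|∫ ι W h_j| ≤ D |Ω|^(1/2) ‖ι W‖`.  So `- ∫ ⟪W, ∇Ψ⟫ ≥ S - T`, and it is at most
`‖W‖ (2S/ε)^(1/2)`. -/
def DuaStmt : Prop := ∀ (d : ℕ) (Ω : Set (En d)) (ι : VV Ω →L[ℝ] Lp ℝ 2 (mu Ω)) (N J : ℕ)
  (B : ℝ) (f : Fin N → En d → ℝ) (x : Fin J → En d) (w : Fin J → ℝ) (R D κ ε : ℝ)
  (r : Fin J → ℝ) (η ψ g h : Fin J → En d → ℝ) (W : VV Ω) (c : Fin N → ℝ) (S T : ℝ), Dom Ω →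
  Emb2 Ω ι → (∀ i, Bm B (f i)) → 0 < D → 0 < κ → 0 < ε → Sys Ω f x w R D κ ε r η ψ g h →
  (∀ j, ∀ᵐ y ∂(mu Ω), ‖y - x j‖ ≤ r j → ι W y = - lc f c y) →
  S = ∑ j, w j * lc f c (x j) ^ 2 →
  T = (∑ j, w j * |lc f c (x j)|) *
    (κ * ∑ i, |c i| + D * Real.sqrt (volume.real Ω) * ‖ι W‖) →
  S - T ≤ Real.sqrt (2 * S / ε) * ‖W‖

/-- LOW (uses DUA, EXT): the first eigenvalue moves by at least `2ε/5`.  Proof: `v = b'_0`,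
`V = om'_0 e'_0` (`ι' V = v`, `‖V‖² = om'_0²`), `c_i = ⟪b i, E v⟫` (`i < N`),
`W = F V - ∑ c_i om_i e_i`, `ι W = E v - ∑ c_i b_i`.  On the closed ball of radius `r j` `E v = 0`
and `∑ c_i b_i = lc f c`.  `⟪e i, W⟫ = om_i ⟪b i, ι W⟫ = 0` for `i < N`, so
`om'_0² = ∑ om_i² c_i² + ‖W‖²`, `1 = sq c + ‖ι W‖²`, `‖W‖² ≥ om_N² ‖ι W‖² ≥ 100 om_0² ‖ι W‖²`.
So `om'_0² - om_0² = ∑ (om_i² - om_0²) c_i² + ‖W‖² - om_0² ‖ι W‖² ≥ (99/100) ‖W‖²`; with the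
hypothesis, `‖W‖² ≤ 3.04 ε`, `‖ι W‖² ≤ 3.04 ε/(100 om_0²)`.  For `ε` small `sq c ≥ 999/1000`, and
with `S`, `T` of DUA `98/100 ≤ S ≤ 101/100` and, as `|lc f c (x j)| ≤ B N`, `∑ |c_i| ≤ N`,
`T ≤ (∑ w j) B N (κ N + D |Ω|^(1/2) ‖ι W‖) ≤ 1/100` for `κ ≤ κ₀`, `ε < ε₀`.  DUA:
`‖W‖² ≥ (ε/(2S)) (S - T)² ≥ (ε/2) (97/100)²/(101/100) ≥ (46/100) ε`, and
`(99/100)(46/100) ≥ 2/5`. -/
def LowStmt : Prop := ∀ (d : ℕ) (Ω : Set (En d)) (ι : VV Ω →L[ℝ] Lp ℝ 2 (mu Ω))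
  (b : HilbertBasis ℕ ℝ (Lp ℝ 2 (mu Ω))) (e : HilbertBasis ℕ ℝ (VV Ω)) (om : ℕ → ℝ) (N : ℕ)
  (B : ℝ) (f : Fin N → En d → ℝ) (J : ℕ) (w : Fin J → ℝ) (D : ℝ), Ok Ω ι b e om → 0 < N →
  100 * om 0 ^ 2 ≤ om N ^ 2 → (∀ i, Bm B (f i)) → (∀ i, f i =ᵐ[mu Ω] b i) → 0 < D →
  ∃ κ₀ ε₀ : ℝ, 0 < κ₀ ∧ 0 < ε₀ ∧
  ∀ (x : Fin J → En d) (R κ ε : ℝ) (r : Fin J → ℝ) (η ψ g h : Fin J → En d → ℝ), 0 < κ →
  κ ≤ κ₀ → 0 < ε → ε < ε₀ → Sys Ω f x w R D κ ε r η ψ g h →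
  ∀ (ι' : VV (Hl Ω x r) →L[ℝ] Lp ℝ 2 (mu (Hl Ω x r)))
    (b' : HilbertBasis ℕ ℝ (Lp ℝ 2 (mu (Hl Ω x r)))) (e' : HilbertBasis ℕ ℝ (VV (Hl Ω x r)))
    (om' : ℕ → ℝ), Ok (Hl Ω x r) ι' b' e' om' → om' 0 ^ 2 ≤ om 0 ^ 2 + 3 * ε →
    om 0 ^ 2 + 2 / 5 * ε ≤ om' 0 ^ 2

/-! ## The first eigenvalue of a connected domain is simple -/

/-- ABV: absolute values.  Proof: Ch2 (landed) with `Φ_δ s = (s² + δ²)^(1/2) - δ`, `|Φ_δ'| ≤ 1`: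
`G_δ : VV Ω` with `ι G_δ = Φ_δ(ι G)`, `‖G_δ‖ ≤ ‖G‖`.  `ι G_δ → |ι G|` in `L²` for `δ → 0`.  The
`G_δ`, `δ = 1/n`, are bounded in a Hilbert space: a subsequence converges weakly to `G'`,
`‖G'‖ ≤ ‖G‖`, `ι G' = |ι G|`.  (Or, without weak convergence: convex combinations, or the closed
convex sets `K_n = closure of the convex hull of the G_(1/m), m ≥ n`; or: `∇Φ_δ(u) → sign(u) G` in
`L²` by dominated convergence, which gives `G'` directly: `Φ_δ'(s) = s/(s²+δ²)^(1/2) → sign s`.) -/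
def AbvStmt : Prop := ∀ (d : ℕ) (Ω : Set (En d)) (ι : VV Ω →L[ℝ] Lp ℝ 2 (mu Ω)), Dom Ω →
  Emb2 Ω ι → ∀ G : VV Ω, ∃ G' : VV Ω, ι G' =ᵐ[mu Ω] (fun y => |ι G y|) ∧ ‖G'‖ ≤ ‖G‖

/-- MNE: minimizers are eigenfunctions.  Proof: by `rel`
`‖G‖² - om_0² ‖ι G‖² = ∑ (1 - om_0² om_k⁻²) ⟪e k, G⟫² ≤ 0`, so `⟪e k, G⟫ = 0` unless
`om_k = om_0`; then both sides of the claim are `∑ ⟪e k, G⟫ ⟪e k, G'⟫`. -/
def MneStmt : Prop := ∀ (d : ℕ) (Ω : Set (En d)) (ι : VV Ω →L[ℝ] Lp ℝ 2 (mu Ω))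
  (b : HilbertBasis ℕ ℝ (Lp ℝ 2 (mu Ω))) (e : HilbertBasis ℕ ℝ (VV Ω)) (om : ℕ → ℝ),
  Spec Ω ι b e om → ∀ G : VV Ω, ‖G‖ ^ 2 ≤ om 0 ^ 2 * ‖ι G‖ ^ 2 →
    ∀ G' : VV Ω, ⟪G, G'⟫_ℝ = om 0 ^ 2 * ⟪ι G, ι G'⟫_ℝ

/-- MVI (uses THE, HFG): zeros of nonnegative superharmonic functions.  Proof: let `0 < R₁ ≤ R` and
`h` of HFG for `x, R₁`; for every `r` with `0 < r < R₁` let `ψ, g` be as there, with `γ` = a small
number with the required bound.  `ψ ≥ 0` is a test function of `Ω`, so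
`0 ≤ ∫ ⟪G, ∇ψ⟫ = ∫ f (g - h)` (`lap`, by density of the gradients of test functions; `f = ι G`
almost everywhere).  So `∫ f h ≤ ∫ f g ≤ (sup g) ∫_(ρ ≤ r) |f - f x| ≤ D R₁^d κ'` if `r` is small
(`Leb`, `f x = 0`); `h` does not depend on `r` and `κ'` is arbitrary, so `∫ f h = 0`, `f = 0` almost
everywhere on the shell `R₁/2 < ρ < R₁` (`h > 0` there).  The shells for `R₁ = (3/4)^k R`,
`k = 0, 1, ..` cover `0 < ρ < R`. -/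
def MviStmt : Prop := ∀ (d : ℕ) (Ω : Set (En d)) (ι : VV Ω →L[ℝ] Lp ℝ 2 (mu Ω)) (G : VV Ω)
  (B : ℝ) (f : En d → ℝ) (x : En d) (R : ℝ), (d = 2 ∨ d = 3) → Dom Ω → Emb2 Ω ι → Bm B f →
  (∀ y, 0 ≤ f y) → f =ᵐ[mu Ω] ι G →
  (∀ ψ, Tst Ω ψ → (∀ y, 0 ≤ ψ y) →
    0 ≤ ∫ y, ⟪(G : Lp (En d) 2 (mu Ω)) y, gradient ψ y⟫_ℝ ∂(mu Ω)) →
  0 < R → Metric.closedBall x R ⊆ Ω → Leb f x → f x = 0 →
  ∀ᵐ y, ‖y - x‖ < R → f y = 0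

/-- POS (uses MVI, LEB): strong maximum principle.  Proof: a bounded representative `f ≥ 0` of
`ι G` (`ι G` is bounded by hypothesis), `0` outside `Ω`.  Let `Z` be the set of the `x ∈ Ω` with
`f = 0` almost everywhere in a ball around `x`: open.  If `f = 0` on a subset of `Ω` of positive
measure, that set contains a Lebesgue point of `f`, which is in `Z` by MVI (the hypothesis of MVI:
`∫ ⟪G, ∇ψ⟫ = l ∫ f ψ ≥ 0`, `l ≥ 0`).  `Z` is closed in `Ω`: let `y ∈ Ω` be a limit of points of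
`Z`, `closedBall y (2R) ⊆ Ω`, `z ∈ Z`, `‖z - y‖ < R/2`; near `z` there is a Lebesgue point `x`
with `f x = 0`, `‖x - y‖ < R/2`, and `closedBall x R ⊆ Ω`, so `f = 0` almost everywhere on the
ball of radius `R` at `x`, a neighbourhood of `y`.  So `Z = Ω` (connected), and `f = 0` almost
everywhere (Lindelöf). -/
def PosStmt : Prop := ∀ (d : ℕ) (Ω : Set (En d)) (ι : VV Ω →L[ℝ] Lp ℝ 2 (mu Ω)) (G : VV Ω)
  (l B : ℝ), (d = 2 ∨ d = 3) → Dom Ω → IsConnected Ω → Emb2 Ω ι → 0 ≤ l →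
  (∀ᵐ y ∂(mu Ω), 0 ≤ ι G y ∧ ι G y ≤ B) → (∀ G' : VV Ω, ⟪G, G'⟫_ℝ = l * ⟪ι G, ι G'⟫_ℝ) →
  ι G ≠ 0 → ∀ᵐ y ∂(mu Ω), 0 < ι G y

/-- SMP (uses ABV, MNE, POS, REP): simplicity.  Proof: suppose `om 0 = om 1`.  `u_k = b k`,
`G_k = om_k e_k`, `k = 0, 1`: `ι G_k = u_k`, `‖G_k‖² = om_0² = om_0² ‖u_k‖²`, `u_k` bounded (REP).
ABV: `H_k` with `ι H_k = |u_k|`, `‖H_k‖² ≤ om_0² ‖ι H_k‖²`.  The sum `H_k + G_k` and the difference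
`H_k - G_k` satisfy the equation of MNE (linear: MNE for `H_k` and for `G_k`), and
`ι (H_k ± G_k) = |u_k| ± u_k ≥ 0`.  POS: each of them is `0` or positive almost everywhere; not
both positive (their product is `0`).  So `u_k > 0` almost everywhere or `u_k < 0` almost
everywhere, and `∫ u_0 u_1 ≠ 0`: contradiction. -/
def SmpStmt : Prop := ∀ (d : ℕ) (Ω : Set (En d)) (ι : VV Ω →L[ℝ] Lp ℝ 2 (mu Ω))
  (b : HilbertBasis ℕ ℝ (Lp ℝ 2 (mu Ω))) (e : HilbertBasis ℕ ℝ (VV Ω)) (om : ℕ → ℝ),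
  (d = 2 ∨ d = 3) → Ok Ω ι b e om → IsConnected Ω → om 0 < om 1

/-! ## Assembly -/

/-- STU: eigenfunctions of all subdomains are bounded uniformly.  Proof: repeat
`Pool/Agent/Helper91_BE01/EMB.lean`, `LVL.lean` and `Helper47_BE01/Sta.lean` for `Ω'` with the
constant `C` of the Sobolev inequality `SobStmt` (BE01, `Pool.Agent.BE01.H51.sob`) of `Ω`: a test
function of `Ω'` is one of `Ω` and its norms over `Ω'` and `Ω` are equal, so the embedding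
`VV Ω' → L⁶` has norm at most `C`; the constant of LVL is `‖ι‖² c₁ + 1`, the one of STA
`8 C₀ |Ω'|^(1/6) + 1`: monotone in `‖ι‖` and `|Ω'| ≤ |Ω|`.  An eigenfunction solves the Dirichlet
problem with right side `l u`. -/
def StuStmt : Prop := ∀ (d : ℕ) (Ω : Set (En d)), (d = 2 ∨ d = 3) → Dom Ω → ∃ C : ℝ, 0 < C ∧
  ∀ (Ω' : Set (En d)), Dom Ω' → Ω' ⊆ Ω → ∀ (l : ℝ) (u : Lp ℝ 2 (mu Ω')), IsEig Ω' l u →
    ∀ᵐ y ∂(mu Ω'), |u y| ≤ C * (|l| * ‖u‖)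

/-- POW: a lower bound.  Proof: Hölder or Jensen for the convex function `s ↦ s^(p+1)` and the
normalized measure: `(∫ u²/|Ω|)^(p+1) ≤ ∫ u^(2p+2)/|Ω|`. -/
def PowStmt : Prop := ∀ (d : ℕ) (Ω : Set (En d)) (p : ℕ) (B V : ℝ) (u : Lp ℝ 2 (mu Ω)), Dom Ω →
  (∀ᵐ y ∂(mu Ω), |u y| ≤ B) → ‖u‖ = 1 → volume.real Ω ≤ V →
  1 ≤ V ^ p * ∫ y, u y ^ (2 * p + 2) ∂(mu Ω)

/-- DEN: the theorem (uses EMP, EIG of squad BEL, `fnl2`, and MMX, EGK, REP, SYE, GEO, UPP, LOW,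
SMP, STU, POW).  Proof: `Ok Ω ι b e om` (EMP, EIG), `C` of STU, `V = |Ω|`, `B₁ = C (om_0² + 3)`,
`K` with `(2p+1) B₁^(2p) V^p < K p cp`, `M = 1 + 2pK`.  `N > 0` with
`om_N² ≥ 100 om_0²` and `om_N > M om_0`.  REP: `f`; `∫_Ω f_i f_k = ⟪b i, b k⟫`.  SYE: `J, x, w, R,
D`.  `κ ≤` the two `κ₀` of UPP, LOW.  For odd `3 ≤ n ≤ M` let `g_n > 0` be the distance from
`n² om_0²` to the next `om_k²` above it; `ε` small: `ε < 1`, `ε₀` of SYE and LOW,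
`3 n² ε < g_n`.  `Ω' = Hl Ω x r`: open, connected (GEO), bounded, nonempty; `Ok Ω' ι' b' e' om'`.
SMP: `om'_0 < om'_1`, so `φ = b'_0` is a simple eigenfunction (EGK), `l = om'_0² ≤ om_0² + 3 ε`,
`|φ| ≤ B₁`, `∫ φ² = 1`, `∫ φ^(2p+2) ≥ V^(-p)`: the condition of `fnl2` on `K`.  Nonresonance: let
`IsEig Ω' (n² l) u`, `u ≠ 0`; `n² l = om'_k²` for some `k` (EGK).  If `om_k² ≤ n² om_0²` then `k < N`
and `om'_k² ≤ om_k² + 3 ε ≤ n² om_0² + 3 ε < n² (om_0² + 2ε/5) ≤ n² l` (UPP, LOW, `n ≥ 3`).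
Otherwise `om'_k² ≥ om_k² ≥ n² om_0² + g_n > n² (om_0² + 3 ε) ≥ n² l` (MMX).  Contradiction. -/
def DenStmt : Prop := ∀ (d : ℕ) (Ω : Set (En d)) (p : ℕ) (a δ : ℝ), (d = 2 ∨ d = 3) → Dom Ω →
  IsConnected Ω → 1 ≤ p → 0 < a → 0 < δ → ∃ (J : ℕ) (x : Fin J → En d) (r : Fin J → ℝ),
    (∀ j, 0 < r j ∧ Metric.closedBall (x j) (r j) ⊆ Ω) ∧
    (∀ i j, i ≠ j → Disjoint (Metric.closedBall (x i) (r i)) (Metric.closedBall (x j) (r j))) ∧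
    ∑ j, r j < δ ∧ IsConnected (Hl Ω x r) ∧ Rt (Hl Ω x r) a ((2 * p : ℕ) : ℝ)

end

end Pool.Agent.BEH
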