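import Pool.Agent.BEH.Stmts

/-!
# Squad BEH (MP_be01ff_an): domains with small holes, EVERY dimension `d ≥ 2`.
Statements, with complete proofs.

Only the rows of `Stmts.lean` which use `d = 2 ∨ d = 3` change: RAI HU3 HFG HOL SYE MVI POS SMP REP
STU DEN.  All the others (EXT MMT MMX EGK PRR ENI LEB QUA THE CHI RGR ERR HU2 GEO PRE UPP DUA LOW
ABV MNE POW) are for every `d` and are proved.  `Leb`, `Bm`, `Prof`, `Cut`, `Fld`, `Sys`, `Hl`, `Rt`,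
`Ok` are those of `Defs.lean`.  For `d ≥ 4` the charge on the shell `(r/2, r)` has too much energy;
the inner profile is now `θ((ρ/r)^k)`, `k = d - 2`.

`d`-independent interface with the final state theorem: `Uni d` (order `M` uniform over subdomains).
-/

namespace Pool.Agent.BEH

open Set Filter Topology MeasureTheory
open scoped InnerProductSpace ENNReal
open Pool.Agent.BE01 Pool.Agent.BEL

noncomputable section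

/-- The area of the unit sphere of `En d` (`d` times the volume of the unit ball). -/
def sphd (d : ℕ) : ℝ := d * volume.real (Metric.ball (0 : En d) 1)

/-! ## Cut-off functions and potentials in every dimension -/

/-- VOD (easy): `Measure.addHaar_real_closedBall` / `addHaar_real_ball` (`finrank = d`),
`measureReal` of a ball is positive, `EuclideanSpace.volume_ball_fin_two` for `sphd 2`. -/
def VodStmt : Prop := (∀ d : ℕ, 0 < d → 0 < sphd d ∧ ∀ (x : En d) (ρ : ℝ), 0 ≤ ρ →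
  volume.real (Metric.closedBall x ρ) = sphd d / d * ρ ^ d) ∧ sphd 2 = 2 * Real.pi

/-- RAD (easy; copy `Helper8_BEH/RAI.lean`): radial integrals, `integral_fun_norm_addHaar` after a
translation (`finrank_euclideanSpace_fin`). -/
def RadStmt : Prop := ∀ (d : ℕ), 0 < d → ∀ (x : En d) (f : ℝ → ℝ),
  ∫ y, f ‖y - x‖ = sphd d * ∫ ρ in Ioi (0 : ℝ), ρ ^ (d - 1) * f ρ

/-- HUD (medium; uses CHI, RAD, VOD, RGR, ERR; copy `Helper39_BEH/HU3.lean` and `Cutc.lean`):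
cut-off functions, `d ≥ 3`.  Proof: `k = d - 2 ≥ 1`, `γ = k sphd d r^k`,
`η y = χ(s)`, `s = (r/ρ)^k`, `ρ = ‖y - x‖`, for `ρ > 0`, and `0` for `ρ ≤ 0`.  `s ≥ 7/8` for
`ρ ≤ r' := r (1 + 1/(8k))` (Bernoulli: `(1 + 1/(8k))^k ≤ exp(1/8) ≤ 8/7`), so `η = 0` there; `s ≤ 1/4` for
`ρ ≥ R' := 4r` (`4^k ≥ 4`), so `η = 1` there; `R' < R` for `r` small.  `|η'(ρ)| = |χ'(s)| k r^k ρ^(-k-1)`.
Energy: `sphd d ∫ ρ^(d-1) χ'(s)² k² r^(2k) ρ^(-2k-2) dρ = k sphd d r^k ∫ χ'(s)² k r^k ρ^(-k-1) dρ =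
γ ∫_(0,∞) χ'(s)² ds ≤ (5/2) γ` (`d - 1 = k + 1`, `ds = - k r^k ρ^(-k-1) dρ`; `integral_comp_rpow_Ioi` with
exponent `-k` as in HU3, or the fundamental theorem for a primitive of `χ'²`).  Error: for `ρ ≥ r`
`η'(ρ)² ≤ (25/4) k² r⁻²`, and `0` for `ρ < r` or `ρ > 4r`, so by ERR the error is at most
`2BN sq c (25/4) k² r⁻² ∑_i ∫_(ρ ≤ 4r) |f i - f i x| ≤ 2BN² sq c (25/4) k² r⁻² κ' (4r)^d =
C κ' r^k sq c ≤ κ γ sq c` for `κ'` (the constant of `Leb`) small.  `{η ≠ 1}` is in the ball of radius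
`4r`, of volume `(sphd d/d) (4r)^d ≤ κ γ` for `r` small (`r^d = r² r^k`). -/
def HudStmt : Prop := ∀ (d N : ℕ) (B : ℝ) (f : Fin N → En d → ℝ) (x : En d) (R κ : ℝ), 3 ≤ d →
  (∀ i, Bm B (f i)) → (∀ i, Leb (f i) x) → 0 < R → 0 < κ → ∃ r₀ : ℝ, 0 < r₀ ∧
  ∀ r : ℝ, 0 < r → r < r₀ → ∃ η : En d → ℝ,
    Cut f x R κ (((d : ℝ) - 2) * sphd d * r ^ (d - 2)) r η

/-- HFD (medium; uses VOD, RAD, RGR; copy `Helper22_BEH/HFG.lean`): potentials, every dimension, inner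
profile `θ((ρ/r)^k)`.  Proof: `ω = sphd d`, `q(ρ) = θ((ρ/r)^k) - θ(ρ/R)`, smooth.  `q ≥ 0`: for
`ρ ≤ R/2` the second term is `0`; for `ρ ≥ R/2 ≥ r` the first is `1`.  `q ≤ 1`.  `q = 0` for
`0 ≤ ρ ≤ lam r` (`(ρ/r)^k ≤ lam^k ≤ 1/2`, and `lam r ≤ r ≤ R/2`) and for `ρ ≥ R`.
`Q(s) = ∫_s^R q(t)/(ω t^(d-1)) dt`, `ψ y = Q(‖y - x‖)`, `∇ψ = - q(ρ)/(ω ρ^d) (y - x)`,
`g y = k ρ^(k-1) θ'((ρ/r)^k)/(r^k ω ρ^(d-1))`, `h y = θ'(ρ/R)/(R ω ρ^(d-1))`: `h` depends only on `R`.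
`g ≠ 0` only if `r/2 < ρ < r` (`(1/2)^k ≤ 1/2`), so `g ≤ k A 2^(d-1)/(ω r^d)`;
`h ≤ A 2^(d-1)/(ω R^d)`.  `∫ g = ∫_0^∞ (d/dρ) θ((ρ/r)^k) dρ = 1` (RAD).  `lap`: as in HFG, the
divergence of `q(ρ)(y - x)/(ω ρ^d)` is `q'(ρ)/(ω ρ^(d-1)) = g - h`.  Energy (RAD):
`∫ ‖∇ψ‖² = ω⁻¹ ∫ q² ρ^(1-d) dρ ≤ ω⁻¹ ∫_(lam r)^R ρ^(1-d) dρ`. -/
def HfdStmt : Prop := ∀ (d k : ℕ) (A : ℝ) (θ θ' : ℝ → ℝ), 2 ≤ d → 1 ≤ k → 0 < A → Prof A θ θ' →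
  ∀ (x : En d) (R : ℝ), 0 < R → ∃ h : En d → ℝ, ∀ r γ lam : ℝ, 0 < r → 2 * r ≤ R → 0 < γ →
  0 < lam → lam ^ k ≤ 1 / 2 →
  (sphd d)⁻¹ * (∫ ρ in (lam * r)..R, (ρ ^ (d - 1))⁻¹) ≤ 2 / γ →
  ∃ ψ g : En d → ℝ, Fld x R (k * A * 2 ^ (d - 1) / (sphd d * R ^ d)) γ r ψ g h

/-- HOD (easy-medium; uses THE, HU2, VOD, HUD, HFD; copy `Helper43_BEH/HOL.lean`): a hole at a Lebesgue
point, every dimension.  `d = 2`: `k = 1`, `lam = 1/2`, `r = exp(-2π/γ)`, energy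
`(2π)⁻¹ log(2R/r) ≤ 2/γ` for `γ` small.  `d ≥ 3`: `k = d - 2`, `lam = (1/2)^(1/k)` (real power),
`r = (γ/(k sphd d))^(1/k)`, `k sphd d r^k = γ`; energy
`ω⁻¹ ∫_(lam r)^R ρ^(-k-1) dρ ≤ (ω k)⁻¹ (lam r)^(-k) = 2/(ω k r^k) = 2/γ`. -/
def HodStmt : Prop := ∀ (d : ℕ), 2 ≤ d → ∀ R : ℝ, 0 < R → ∃ D : ℝ, 0 < D ∧
  ∀ (N : ℕ) (B : ℝ) (f : Fin N → En d → ℝ) (x : En d) (κ : ℝ), (∀ i, Bm B (f i)) →
  (∀ i, Leb (f i) x) → 0 < κ → ∃ γ₀ : ℝ, 0 < γ₀ ∧ ∀ γ : ℝ, 0 < γ → γ < γ₀ →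
  ∃ (r : ℝ) (η ψ g h : En d → ℝ), 0 < r ∧ r < R ∧ Cut f x R κ γ r η ∧ Fld x R D γ r ψ g h ∧
    ∀ i, |(∫ y, f i y * g y) - f i x| ≤ κ

/-- SYD (easy; uses LEB, QUA, HOD; copy `Helper69_BEH/SYE.lean`): systems of holes exist. -/
def SydStmt : Prop := ∀ (d : ℕ) (Ω : Set (En d)) (N : ℕ) (B δ : ℝ) (f : Fin N → En d → ℝ),
  2 ≤ d → Dom Ω → (∀ i, Bm B (f i)) →
  (∀ i k, ∫ y in Ω, f i y * f k y = if i = k then 1 else 0) → 0 < δ →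
  ∃ (J : ℕ) (x : Fin J → En d) (w : Fin J → ℝ) (R D : ℝ), 0 < R ∧ 0 < D ∧ J * R < δ ∧
    ∀ κ : ℝ, 0 < κ → ∃ ε₀ : ℝ, 0 < ε₀ ∧ ∀ ε : ℝ, 0 < ε → ε < ε₀ →
      ∃ (r : Fin J → ℝ) (η ψ g h : Fin J → En d → ℝ), Sys Ω f x w R D κ ε r η ψ g h

/-! ## The first eigenvalue of a connected domain is simple -/

/-- MVD (easy-medium; uses THE, VOD, HFD; copy `Helper57_BEH/MVI.lean`): as MVI, with HFD for `k = 1`,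
`lam = 1/2` and `2r ≤ R₁`. -/
def MvdStmt : Prop := ∀ (d : ℕ) (Ω : Set (En d)) (ι : VV Ω →L[ℝ] Lp ℝ 2 (mu Ω)) (G : VV Ω)
  (B : ℝ) (f : En d → ℝ) (x : En d) (R : ℝ), 2 ≤ d → Dom Ω → Emb2 Ω ι → Bm B f →
  (∀ y, 0 ≤ f y) → f =ᵐ[mu Ω] ι G →
  (∀ ψ, Tst Ω ψ → (∀ y, 0 ≤ ψ y) →
    0 ≤ ∫ y, ⟪(G : Lp (En d) 2 (mu Ω)) y, gradient ψ y⟫_ℝ ∂(mu Ω)) →
  0 < R → Metric.closedBall x R ⊆ Ω → Leb f x → f x = 0 →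
  ∀ᵐ y, ‖y - x‖ < R → f y = 0

/-- POD (easy; uses LEB, MVD; copy `Helper35_BEH/POS.lean`). -/
def PodStmt : Prop := ∀ (d : ℕ) (Ω : Set (En d)) (ι : VV Ω →L[ℝ] Lp ℝ 2 (mu Ω)) (G : VV Ω)
  (l B : ℝ), 2 ≤ d → Dom Ω → IsConnected Ω → Emb2 Ω ι → 0 ≤ l →
  (∀ᵐ y ∂(mu Ω), 0 ≤ ι G y ∧ ι G y ≤ B) → (∀ G' : VV Ω, ⟪G, G'⟫_ℝ = l * ⟪ι G, ι G'⟫_ℝ) →
  ι G ≠ 0 → ∀ᵐ y ∂(mu Ω), 0 < ι G y

/-- RED (easy-medium; uses nothing): bounded representatives, every dimension.  Proof: the landed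
`Pool.Agent.BEL.H24.lin Pool.Agent.BEL.H53.ultA : LinStmt` (`Helper53_BEL/Fin.lean`): `b i` is
the value at time `1` of the heat semigroup with datum `exp(om_i²) b i`, so it is bounded.
Measurable representative, truncated at the bound, `0` outside `Ω`. -/
def RedStmt : Prop := ∀ (d : ℕ) (Ω : Set (En d)) (ι : VV Ω →L[ℝ] Lp ℝ 2 (mu Ω))
  (b : HilbertBasis ℕ ℝ (Lp ℝ 2 (mu Ω))) (e : HilbertBasis ℕ ℝ (VV Ω)) (om : ℕ → ℝ),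
  0 < d → Ok Ω ι b e om → ∀ N : ℕ, ∃ (B : ℝ) (f : Fin N → En d → ℝ), 0 < B ∧
    (∀ i, Bm B (f i)) ∧ (∀ i, f i =ᵐ[mu Ω] b i) ∧ ∀ i x, x ∉ Ω → f i x = 0

/-- SMD (easy; uses RED, ABV, MNE, POD; copy `Helper62_BEH/SMP.lean`). -/
def SmdStmt : Prop := ∀ (d : ℕ) (Ω : Set (En d)) (ι : VV Ω →L[ℝ] Lp ℝ 2 (mu Ω))
  (b : HilbertBasis ℕ ℝ (Lp ℝ 2 (mu Ω))) (e : HilbertBasis ℕ ℝ (VV Ω)) (om : ℕ → ℝ),
  2 ≤ d → Ok Ω ι b e om → IsConnected Ω → om 0 < om 1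

/-! ## Bounds which depend only on the dimension -/

/-- AVU (easy; uses nothing; import `Helper90_BEL/AVO.lean` and `Helper76_BEL/TRN.lean`
(`Pool.Agent.BEL.H76.trn`); the constant there is `cst d`, which does not depend on `Ω`: repeat the
last step of the proof of `H90.avo` with the constant before `Ω`). -/
def AvuStmt : Prop := ∀ d : ℕ, 0 < d → ∃ C : ℝ, 0 < C ∧ ∀ (Ω : Set (En d))
  (ι : VV Ω →L[ℝ] Lp ℝ 2 (mu Ω)), Dom Ω → Emb2 Ω ι → ∀ r : ℝ, 0 < r →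
  ∃ A : Lp ℝ 2 (mu Ω) →L[ℝ] Lp ℝ 2 (mu Ω),
    (∀ f, ∀ᵐ x ∂(mu Ω), |A f x| ≤ C * r ^ (-((d : ℝ) / 2)) * ‖f‖) ∧
    (∀ f, ‖A f‖ ≤ C * r ^ (-((d : ℝ) / 2)) * ∫ x, |f x| ∂(mu Ω)) ∧
    ∀ G : VV Ω, ‖ι G - A (ι G)‖ ≤ r * ‖G‖

/-- NSU (easy; uses AVU; copy `Helper23_BEL/NSH.lean`, with the constant before `Ω`). -/
def NsuStmt : Prop := ∀ d : ℕ, 0 < d → ∃ κ : ℝ, 0 < κ ∧ ∀ (Ω : Set (En d))
  (ι : VV Ω →L[ℝ] Lp ℝ 2 (mu Ω)), Dom Ω → Emb2 Ω ι → ∀ G : VV Ω,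
    κ * ‖ι G‖ ^ (2 + 4 / (d : ℝ)) ≤ ‖G‖ ^ 2 * (∫ x, |ι G x| ∂(mu Ω)) ^ (4 / (d : ℝ))

/-- ULU (easy-medium; uses NSU; copy `Helper20_BEL/ULT.lean`, with the constant before `Ω`; `LsmStmt` is
`Pool.Agent.BEL.H53.lsmA` of `Helper53_BEL/Fin.lean`). -/
def UluStmt : Prop := ∀ d : ℕ, 0 < d → ∃ C : ℝ, 0 < C ∧ ∀ (Ω : Set (En d))
  (ι : VV Ω →L[ℝ] Lp ℝ 2 (mu Ω)) (b : HilbertBasis ℕ ℝ (Lp ℝ 2 (mu Ω)))
  (e : HilbertBasis ℕ ℝ (VV Ω)) (om : ℕ → ℝ), Dom Ω → Emb2 Ω ι → Spec Ω ι b e om →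
    ∀ (t : ℝ) (f u : Lp ℝ 2 (mu Ω)), 0 < t → Heat b om t f u →
      ‖u‖ ≤ C * t ^ (-((d : ℝ) / 4)) * ∫ x, |f x| ∂(mu Ω)

/-- LIU (easy; uses ULU; copy `Helper24_BEL/LIN.lean`, with the constant before `Ω`). -/
def LiuStmt : Prop := ∀ d : ℕ, 0 < d → ∃ C : ℝ, 0 < C ∧ ∀ (Ω : Set (En d))
  (ι : VV Ω →L[ℝ] Lp ℝ 2 (mu Ω)) (b : HilbertBasis ℕ ℝ (Lp ℝ 2 (mu Ω)))
  (e : HilbertBasis ℕ ℝ (VV Ω)) (om : ℕ → ℝ), Dom Ω → Emb2 Ω ι → Spec Ω ι b e om →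
    ∀ (t : ℝ) (f u : Lp ℝ 2 (mu Ω)), 0 < t → Heat b om t f u →
      ∀ᵐ x ∂(mu Ω), |u x| ≤ C * t ^ (-((d : ℝ) / 4)) * ‖f‖

/-- STD (easy-medium; uses LIU): eigenfunctions of ALL domains are bounded by a constant which depends
only on the dimension.  Proof: `u = 0` is trivial.  `(u, G) ∈ H10 Ω`, `u = ι G` (`Grf`), and by density
of the gradients of test functions `⟪G, G'⟫ = l ⟪u, ι G'⟫` for `G' : VV Ω`; with `G' = G`: `l > 0`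
(`G ≠ 0`).  With `G' = e k`, `ι (e k) = om_k⁻¹ b k`, `⟪e k, G⟫ = om_k ⟪b k, u⟫` (`rel`):
`om_k² ⟪b k, u⟫ = l ⟪b k, u⟫`.  So `exp(-t l) u` is the value at time `t` of the heat semigroup with datum
`u`: `|u| ≤ exp(t l) C t^(-d/4) ‖u‖`; `t = 1/l`: the constant is `e C`. -/
def StdStmt : Prop := ∀ d : ℕ, 0 < d → ∃ C : ℝ, 0 < C ∧ ∀ (Ω : Set (En d))
  (ι : VV Ω →L[ℝ] Lp ℝ 2 (mu Ω)) (b : HilbertBasis ℕ ℝ (Lp ℝ 2 (mu Ω)))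
  (e : HilbertBasis ℕ ℝ (VV Ω)) (om : ℕ → ℝ), Ok Ω ι b e om →
  ∀ (l : ℝ) (u : Lp ℝ 2 (mu Ω)), IsEig Ω l u →
    ∀ᵐ y ∂(mu Ω), |u y| ≤ C * |l| ^ ((d : ℝ) / 4) * ‖u‖

/-! ## The interface with the final state theorem, and assembly -/

/-- The final state theorem in dimension `d` for a simple eigenvalue, with an order `M` which is
uniform over the subdomains and over the bounds of the eigenfunction. -/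
def Uni (d : ℕ) : Prop := ∀ (Ω : Set (En d)) (p : ℕ) (a B β : ℝ), Dom Ω → 1 ≤ p → 0 < a →
  0 < β → ∃ M : ℕ, ∀ Ω' : Set (En d), Dom Ω' → Ω' ⊆ Ω → ∀ (l : ℝ) (φ : Lp ℝ 2 (mu Ω')),
    0 < l → l ≤ B → ‖φ‖ = 1 → (∀ᵐ y ∂(mu Ω'), |φ y| ≤ B) → β ≤ ∫ y, φ y ^ (2 * p + 2) ∂(mu Ω') →
    IsEig Ω' l φ → (∀ u, IsEig Ω' l u → ∃ c : ℝ, u = c • φ) →
    (∀ n : ℕ, Odd n → 3 ≤ n → n ≤ M → ∀ u, IsEig Ω' ((n : ℝ) ^ 2 * l) u → u = 0) →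
    Rt Ω' a ((2 * p : ℕ) : ℝ)

/-- UN3 (easy): dimensions `2` and `3`, from the landed theorem `Pool.Agent.Helper70BE01All.fnl2`
(`Fnl2Stmt`): choose `K` with `(2p+1) B^(2p) < K p cp β` (`cp p > 0`), `M = 1 + 2pK`; `∫ φ² = 1`. -/
def Un3Stmt : Prop := Uni 2 ∧ Uni 3

/-- DED (medium; uses MMX, EGK, RED, SYD, GEO, UPP, LOW, SMD, STD, POW and, imported, EMP, EIG; copy the
row DEN): the theorem in every dimension in which `Uni` holds.  Proof: as DEN (see `Stmts.lean`), with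
`B₁ = max (om_0² + 3) (C (om_0² + 3)^(d/4))` (STD; `l = om'_0² ≤ om_0² + 3`, `|φ| ≤ C l^(d/4) ≤ B₁`),
`β = V^(-p)` (`V = |Ω|`, POW), and `M` of `Uni d` for `Ω, p, a, B₁, β` instead of `1 + 2pK`: `M` does not
depend on the holes.  The rest is the same: `N`, `f` (RED), SYD, `κ`, `ε` small against the gaps `g_n`,
`3 ≤ n ≤ M` odd. -/
def DedStmt : Prop := ∀ (d : ℕ), 2 ≤ d → Uni d → ∀ (Ω : Set (En d)) (p : ℕ) (a δ : ℝ), Dom Ω →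
  IsConnected Ω → 1 ≤ p → 0 < a → 0 < δ → ∃ (J : ℕ) (x : Fin J → En d) (r : Fin J → ℝ),
    (∀ j, 0 < r j ∧ Metric.closedBall (x j) (r j) ⊆ Ω) ∧
    (∀ i j, i ≠ j → Disjoint (Metric.closedBall (x i) (r i)) (Metric.closedBall (x j) (r j))) ∧
    ∑ j, r j < δ ∧ IsConnected (Hl Ω x r) ∧ Rt (Hl Ω x r) a ((2 * p : ℕ) : ℝ)

end

end Pool.Agent.BEH
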