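import Pool.Agent.BEH.StmtsD

/-!
# Squad BEH (MP_be01ff_an), part S: stability

THEOREM (DES).  In the theorem on small holes every open set between a suitable compact subset `K` of
`Ω' = Ω` minus the balls and `Ω'` has a solution with the sharp rate, for all `α = 2, 4, …, 2P`.

PLAN.  DEC: the spectral part of DED (no wave equation, arbitrary `M`).  STB: the conditions (first
eigenvalue simple, `n² λ_0` not an eigenvalue for odd `3 ≤ n ≤ M`) are finitely many strict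
inequalities, and the eigenvalues of the smaller domains are close (CPT: test functions close to the
eigenfunctions have compact supports).  DES: the uniform final state theorem.
-/

namespace Pool.Agent.BEH

open Set Filter Topology MeasureTheory
open scoped InnerProductSpace ENNReal
open Pool.Agent.BE01 Pool.Agent.BEL

noncomputable section

/-- CPT (medium; uses MMT): the eigenvalues of large subdomains.  Proof: the gradients of the test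
functions are dense in `VV Ω` (definition: topological closure of the span, and the span of the
classes of gradients of test functions consists of such classes).  `G_i = om_i e_i` (`i ≤ N`) has
`ι G_i = b_i` (coefficients, `Spec.rel`), `‖G_i‖² = om_i²`.  For `θ > 0` let `ψ_i` be a test function
whose gradient class `Γ_i : VV Ω` has `‖Γ_i - G_i‖ ≤ θ`, so `‖ι Γ_i - b_i‖ ≤ ‖ι‖ θ`, and `ι Γ_i = ψ_i`
almost everywhere (`Emb2`).  `K = ⋃ tsupport ψ_i` is compact.  Let `K ⊆ Ω' ⊆ Ω`: `ψ_i` is a test function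
of `Ω'`, `Γ'_i : VV Ω'` the class of its gradient, `ι' Γ'_i = ψ_i`; all functions vanish outside `K`, so
for `T x = ∑_(i ≤ m) x_i Γ'_i`: `‖T x‖ = ‖∑ x_i Γ_i‖`, `‖ι' (T x)‖ = ‖∑ x_i ι Γ_i‖` (or use the extension
EXT, `Helper10_BEH/EXT.lean`: `F Γ'_i = Γ_i`, `E (ι' Γ'_i) = ι Γ_i`).  With `s = (∑ x_i²)^(1/2)`:
`‖∑ x_i G_i‖² = ∑ x_i² om_i² ≤ om_m² s²`, `‖∑ x_i b_i‖ = s`,
`‖T x‖ ≤ (om_m + (N+1) θ) s`, `‖ι' (T x)‖ ≥ (1 - (N+1) ‖ι‖ θ) s`.  For `θ` small (depending on `N`,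
`om_0, …, om_N`, `‖ι‖`, `η`): `(om_m + (N+1) θ)² ≤ (om_m² + η) (1 - (N+1) ‖ι‖ θ)²`, all `m ≤ N` (continuity at
`θ = 0`).  MMT for `Ω'` with `c = om_m² + η`. -/
def CptStmt : Prop := ∀ (d : ℕ) (Ω : Set (En d)) (ι : VV Ω →L[ℝ] Lp ℝ 2 (mu Ω))
  (b : HilbertBasis ℕ ℝ (Lp ℝ 2 (mu Ω))) (e : HilbertBasis ℕ ℝ (VV Ω)) (om : ℕ → ℝ),
  Ok Ω ι b e om → ∀ (N : ℕ) (η : ℝ), 0 < η → ∃ K : Set (En d), IsCompact K ∧ K ⊆ Ω ∧
  ∀ (Ω' : Set (En d)) (ι' : VV Ω' →L[ℝ] Lp ℝ 2 (mu Ω'))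
    (b' : HilbertBasis ℕ ℝ (Lp ℝ 2 (mu Ω'))) (e' : HilbertBasis ℕ ℝ (VV Ω')) (om' : ℕ → ℝ),
    Ok Ω' ι' b' e' om' → K ⊆ Ω' → Ω' ⊆ Ω → ∀ m, m ≤ N → om' m ^ 2 ≤ om m ^ 2 + η

/-- STB (easy-medium; uses MMX, CPT): stability of the spectral conditions.  Proof: `om_k ≤ om'_k`
(MMX).  `N ≥ 1` with `om_N > (M + 1) (om_0 + 1)` (`Spec.top`), and `0 < η' ≤ min η 1` with
`om_0² + η' < om_1²` and `(M² + 1) η' < |n² om_0² - om_k²|` for the finitely many `3 ≤ n ≤ M` odd, `k ≤ N`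
(all these numbers are positive by hypothesis).  `K` of CPT for `N`, `η'`.  `om'_0² ≤ om_0² + η' < om_1² ≤
om'_1²`.  `k ≤ N`: `n² om'_0²` is in `[n² om_0², n² om_0² + M² η']`, `om'_k²` in `[om_k², om_k² + η']`.
`k > N`: `om'_k ≥ om_k ≥ om_N > (M+1) (om_0 + 1) ≥ n om'_0`, as `om'_0² ≤ om_0² + 1 ≤ (om_0 + 1)²`. -/
def StbStmt : Prop := ∀ (d : ℕ) (Ω : Set (En d)) (ι : VV Ω →L[ℝ] Lp ℝ 2 (mu Ω))
  (b : HilbertBasis ℕ ℝ (Lp ℝ 2 (mu Ω))) (e : HilbertBasis ℕ ℝ (VV Ω)) (om : ℕ → ℝ),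
  Ok Ω ι b e om → ∀ (M : ℕ) (η : ℝ), 0 < η → om 0 < om 1 →
  (∀ n : ℕ, Odd n → 3 ≤ n → n ≤ M → ∀ k, (n : ℝ) ^ 2 * om 0 ^ 2 ≠ om k ^ 2) →
  ∃ K : Set (En d), IsCompact K ∧ K ⊆ Ω ∧
  ∀ (Ω' : Set (En d)) (ι' : VV Ω' →L[ℝ] Lp ℝ 2 (mu Ω'))
    (b' : HilbertBasis ℕ ℝ (Lp ℝ 2 (mu Ω'))) (e' : HilbertBasis ℕ ℝ (VV Ω')) (om' : ℕ → ℝ),
    Ok Ω' ι' b' e' om' → K ⊆ Ω' → Ω' ⊆ Ω → om' 0 < om' 1 ∧ om' 0 ^ 2 ≤ om 0 ^ 2 + η ∧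
    ∀ n : ℕ, Odd n → 3 ≤ n → n ≤ M → ∀ k, (n : ℝ) ^ 2 * om' 0 ^ 2 ≠ om' k ^ 2

/-- DEC (easy-medium; uses MMX, RED, SYD, GEO, UPP, LOW, SMD): the spectral part of DED.  Copy
`Pool/Agent/Helper69_BEH/DED.lean` (`ded_aux`) and keep only what concerns the eigenvalues: here `M` is
given, `ι b e om` are given, and the eigenvalue inequalities are proved for an arbitrary `Ok` system of
`Hl Ω x r`.  (`om'_0² ≤ om_0² + 3 ε ≤ om_0² + 2` as `ε ≤ 1/2`.) -/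
def DecStmt : Prop := ∀ (d : ℕ), 2 ≤ d → ∀ (Ω : Set (En d)) (ι : VV Ω →L[ℝ] Lp ℝ 2 (mu Ω))
  (b : HilbertBasis ℕ ℝ (Lp ℝ 2 (mu Ω))) (e : HilbertBasis ℕ ℝ (VV Ω)) (om : ℕ → ℝ) (M : ℕ)
  (δ : ℝ), Ok Ω ι b e om → IsConnected Ω → 0 < δ →
  ∃ (J : ℕ) (x : Fin J → En d) (r : Fin J → ℝ),
    (∀ j, 0 < r j ∧ Metric.closedBall (x j) (r j) ⊆ Ω) ∧
    (∀ i j, i ≠ j → Disjoint (Metric.closedBall (x i) (r i)) (Metric.closedBall (x j) (r j))) ∧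
    ∑ j, r j < δ ∧ IsConnected (Hl Ω x r) ∧ Dom (Hl Ω x r) ∧
    ∀ (ι' : VV (Hl Ω x r) →L[ℝ] Lp ℝ 2 (mu (Hl Ω x r)))
      (b' : HilbertBasis ℕ ℝ (Lp ℝ 2 (mu (Hl Ω x r)))) (e' : HilbertBasis ℕ ℝ (VV (Hl Ω x r)))
      (om' : ℕ → ℝ), Ok (Hl Ω x r) ι' b' e' om' → om' 0 < om' 1 ∧ om' 0 ^ 2 ≤ om 0 ^ 2 + 2 ∧
      ∀ n : ℕ, Odd n → 3 ≤ n → n ≤ M → ∀ k, (n : ℝ) ^ 2 * om' 0 ^ 2 ≠ om' k ^ 2

/-- DES (easy-medium; uses EGK, STB, DEC, STD, POW and, imported, `Pool.Agent.BEL.H53.empA`,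
`Pool.Agent.BEL.H53.eigA`): stability of the theorem on small holes.  Copy the last part of
`Pool/Agent/Helper69_BEH/DED.lean`.  `Ok Ω ι b e om` (EMP, EIG); `C` of STD, `V = |Ω| + 1`,
`B₁ = max (om_0² + 3) (C (om_0² + 3)^(d/4))`; for `1 ≤ p ≤ P` let `M_p` be from `Uni d` for
`Ω, p, 1, B₁, (V^p)⁻¹`, and `M = max M_p`.  DEC with `M`: `x, r`; `Ok` system of `Hl Ω x r` (EMP, EIG); STB
with `M` and `η = 1`: `K₀`; `K = K₀ ∪ {y}` with some `y ∈ Hl Ω x r`.  Let `Ω'` be open,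
`K ⊆ Ω' ⊆ Hl Ω x r`: it is `Dom` (nonempty: `y`), `Ok` system (EMP, EIG), `om''_0 < om''_1`,
`l = om''_0² ≤ om_0² + 3`; STD and POW as in DED (`|Ω'| ≤ V`), EGK: simple, `n² l` is not an eigenvalue
for odd `3 ≤ n ≤ M`; `Uni d`. -/
def DesStmt : Prop := ∀ (d : ℕ), 2 ≤ d → Uni d → ∀ (Ω : Set (En d)) (P : ℕ) (δ : ℝ), Dom Ω →
  IsConnected Ω → 0 < δ → ∃ (J : ℕ) (x : Fin J → En d) (r : Fin J → ℝ) (K : Set (En d)),
    (∀ j, 0 < r j ∧ Metric.closedBall (x j) (r j) ⊆ Ω) ∧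
    (∀ i j, i ≠ j → Disjoint (Metric.closedBall (x i) (r i)) (Metric.closedBall (x j) (r j))) ∧
    ∑ j, r j < δ ∧ IsConnected (Hl Ω x r) ∧ IsCompact K ∧ K ⊆ Hl Ω x r ∧
    ∀ Ω' : Set (En d), IsOpen Ω' → K ⊆ Ω' → Ω' ⊆ Hl Ω x r → ∀ p : ℕ, 1 ≤ p → p ≤ P →
      Rt Ω' 1 ((2 * p : ℕ) : ℝ)

end

end Pool.Agent.BEH
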